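import Pool.Agent.H77R3.AT.T2aA

set_option autoImplicit false

/-! Task T2a of the project 508-AT (helper508): bounded columns on the absolutely continuous part.
(helper77) -/

namespace Pool.Agent.H77R3.AT2a

open MeasureTheory Filter Topology Set Matrix
open Pool.Agent.H695R3.AT Pool.Agent.H508R3.AT
open Pool.Agent.H508R3.SC (M2 ns)

/-- finite sums -/
lemma W_sum {X : Type} [NormedAddCommGroup X] [InnerProductSpace ℂ X] {ν : Measure ℝ}
    {W : X → ℝ → ℂ} (hadd : ∀ χ χ', ∀ᵐ x ∂ν, W (χ + χ') x = W χ x + W χ' x)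
    (hsm : ∀ (c : ℂ) χ, ∀ᵐ x ∂ν, W (c • χ) x = c * W χ x) {ι : Type} (F : Finset ι) (c : ι → ℂ)
    (g : ι → X) : ∀ᵐ x ∂ν, W (∑ i ∈ F, c i • g i) x = ∑ i ∈ F, c i * W (g i) x := by
  classical
  induction F using Finset.induction_on with
  | empty =>
    filter_upwards [hsm 0 0] with x hx
    simpa using hx
  | insert i F hi ih =>
    filter_upwards [ih, hadd (c i • g i) (∑ i ∈ F, c i • g i), hsm (c i) (g i)] with x h1 h2 h3
    rw [Finset.sum_insert hi, Finset.sum_insert hi, h2, h3, h1]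

theorem t2a : T2a := by
  classical
  intro s hs lam v H hH ψ ν hspec hW hsing
  obtain ⟨W, Wm, Wb, Wadd, Wsm, Wψ, WH⟩ := hW
  have : IsFiniteMeasure ν := hspec.1
  set U : ℕ → ℝ → ℂ := fun k => W (Ph s k) with hUdef
  set f : Vtx s → ℝ → ℂ := fun x => W (lp.single 2 x (1 : ℂ)) with hfdef
  have Um : ∀ k, Measurable (U k) := fun k => Wm _
  have h0 : ∀ᵐ E ∂ν, U 0 E = 0 := by
    filter_upwards [Wsm 0 0] with E hE
    have : Ph s 0 = 0 := rfl
    rw [hUdef]
    simp only [this]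
    simpa using hE
  have hU : ∀ᵐ E ∂ν, ∀ n, U (n + 1) E = ((1 / √(s n : ℝ) : ℝ) : ℂ) * ∑ i : Fin (s n),
      f ⟨n, i⟩ E := by
    rw [ae_all_iff]
    intro n
    have h1 := W_sum Wadd Wsm (Finset.univ : Finset (Fin (s n))) (fun _ => (1 : ℂ))
      (fun i => (lp.single 2 (⟨n, i⟩ : Vtx s) (1 : ℂ) : L2 s))
    filter_upwards [h1, Wsm ((1 / √(s n : ℝ) : ℝ) : ℂ)
      (∑ i : Fin (s n), lp.single 2 (⟨n, i⟩ : Vtx s) (1 : ℂ))] with E e1 e2
    simp only [one_smul, one_mul] at e1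
    show W (Ph s (n + 1)) E = _
    rw [Ph, e2, e1]
  have hF : ∀ᵐ (E : ℝ) ∂ν, ∀ x : Vtx s, (E : ℂ) * f x E = ((lam * v x : ℝ) : ℂ) * f x E +
      ((1 / √(s x.1 : ℝ) : ℝ) : ℂ) * (U x.1 E + U (x.1 + 2) E) := by
    rw [ae_all_iff]
    intro x
    filter_upwards [WH (lp.single 2 x (1 : ℂ)),
      Wadd (((lam * v x : ℝ) : ℂ) • (lp.single 2 x (1 : ℂ) : L2 s))
        (((1 / √(s x.1 : ℝ) : ℝ) : ℂ) • (Ph s x.1 + Ph s (x.1 + 2))),
      Wsm ((lam * v x : ℝ) : ℂ) (lp.single 2 x (1 : ℂ)),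
      Wsm ((1 / √(s x.1 : ℝ) : ℝ) : ℂ) (Ph s x.1 + Ph s (x.1 + 2)),
      Wadd (Ph s x.1) (Ph s (x.1 + 2))] with E e1 e2 e3 e4 e5
    rw [H_single hH] at e1
    show (E : ℂ) * W (lp.single 2 x (1 : ℂ)) E = _
    rw [← e1, e2, e3, e4, e5]
  set w0 : ℝ → ENNReal := ν.rnDeriv volume with hw0
  have hm0 : Measurable w0 := Measure.measurable_rnDeriv ν volume
  set μ0 : Measure ℝ := volume.withDensity w0 with hμ0
  have hle : μ0 ≤ ν := Measure.withDensity_rnDeriv_le ν volume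
  have ac1 : μ0 ≪ ν := Measure.absolutelyContinuous_of_le hle
  have ac2 : μ0 ≪ volume := withDensity_absolutelyContinuous _ _
  have good : ∀ᵐ E ∂μ0,
      (∀ n, U (n + 1) E = U 1 E * ((TT s lam v E 0 n 0 0 : ℝ) : ℂ) ∧
        U n E = U 1 E * ((TT s lam v E 0 n 1 0 : ℝ) : ℂ)) ∧ (U 1 E = 0 → ∀ x, f x E = 0) := by
    filter_upwards [ac1.ae_le h0, ac1.ae_le hU, ac1.ae_le hF, ac2.ae_le (YY_zero_null hs lam v)]
      with E e0 e1 e2 e3
    exact rec_energy (F := fun x => f x E) (U := fun k => U k E) hs e0 e1 e2 e3.1 e3.2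
  have hg1 : Measurable (fun E => ENNReal.ofReal (‖U 1 E‖ ^ 2)) :=
    ENNReal.measurable_ofReal.comp ((Um 1).norm.pow_const 2)
  refine ⟨fun E => w0 E * ENNReal.ofReal (‖U 1 E‖ ^ 2), hm0.mul hg1, ?_, ?_⟩
  · intro hw
    have hU1 : ∀ᵐ E ∂μ0, U 1 E = 0 := by
      rw [hμ0, ae_withDensity_iff hm0]
      filter_upwards [hw] with E hE hne
      have h1 : ENNReal.ofReal (‖U 1 E‖ ^ 2) = 0 := by
        rcases mul_eq_zero.1 hE with h | h
        · exact absurd h hne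
        · exact h
      rw [ENNReal.ofReal_eq_zero] at h1
      have h2 : ‖U 1 E‖ = 0 := by nlinarith [norm_nonneg (U 1 E)]
      exact norm_eq_zero.1 h2
    have hF0 : ∀ᵐ E ∂μ0, ∀ x, f x E = 0 := by
      filter_upwards [good, hU1] with E h1 h2
      exact h1.2 h2
    have hfin : ∀ F : Finset (Vtx s), μ0 Set.univ ≤
        ENNReal.ofReal (‖ψ - ∑ x ∈ F, lp.single 2 x (ψ x)‖ ^ 2) := by
      intro F
      have hχ : (∑ x ∈ F, lp.single 2 x (ψ x) : L2 s) =
          ∑ x ∈ F, ψ x • (lp.single 2 x (1 : ℂ) : L2 s) := by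
        apply Finset.sum_congr rfl
        intro x _
        rw [← lp.single_smul, smul_eq_mul, mul_one]
      set χ : L2 s := ∑ x ∈ F, lp.single 2 x (ψ x) with hχdef
      have hWχ : ∀ᵐ E ∂μ0, W χ E = 0 := by
        rw [hχ]
        filter_upwards [hF0, ac1.ae_le (W_sum Wadd Wsm F (fun x => ψ x)
          (fun x => (lp.single 2 x (1 : ℂ) : L2 s)))] with E h1 h2
        rw [h2]
        apply Finset.sum_eq_zero
        intro x _
        have := h1 x
        rw [hfdef] at this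
        simp only at this
        rw [this, mul_zero]
      have hsplit : ∀ᵐ E ∂μ0, W (ψ - χ) E = 1 := by
        filter_upwards [hWχ, ac1.ae_le (Wadd χ (ψ - χ)), ac1.ae_le Wψ] with E h1 h2 h3
        rw [add_sub_cancel, h3, h1, zero_add] at h2
        exact h2.symm
      calc μ0 Set.univ = ∫⁻ _, 1 ∂μ0 := by rw [lintegral_one]
        _ = ∫⁻ E, ENNReal.ofReal (‖W (ψ - χ) E‖ ^ 2) ∂μ0 := by
          apply lintegral_congr_ae
          filter_upwards [hsplit] with E h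
          rw [h]; simp
        _ ≤ ∫⁻ E, ENNReal.ofReal (‖W (ψ - χ) E‖ ^ 2) ∂ν := lintegral_mono' hle le_rfl
        _ ≤ _ := Wb _
    have hlim : Tendsto (fun F : Finset (Vtx s) =>
        ENNReal.ofReal (‖ψ - ∑ x ∈ F, lp.single 2 x (ψ x)‖ ^ 2)) atTop (𝓝 0) := by
      have h1 : Tendsto (fun F : Finset (Vtx s) => (∑ x ∈ F, lp.single 2 x (ψ x) : L2 s)) atTop
          (𝓝 ψ) := lp.hasSum_single (by norm_num) ψ
      have h2 : Tendsto (fun F : Finset (Vtx s) => ‖ψ - ∑ x ∈ F, lp.single 2 x (ψ x)‖ ^ 2) atTop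
          (𝓝 (‖ψ - ψ‖ ^ 2)) := ((tendsto_const_nhds.sub h1).norm).pow 2
      have h3 := ENNReal.tendsto_ofReal h2
      simpa using h3
    have hzero : μ0 Set.univ = 0 :=
      le_antisymm (ge_of_tendsto' hlim hfin) bot_le
    have hμz : μ0 = 0 := Measure.measure_univ_eq_zero.1 hzero
    apply hsing
    rw [← Measure.rnDeriv_eq_zero]
    exact (withDensity_eq_zero_iff hm0.aemeasurable).1 hμz
  · intro n
    have hcm : Measurable (fun E : ℝ => col s lam v E n) :=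
      (col_meas lam n).comp measurable_prodMk_left
    have hg2 : Measurable (fun E => ENNReal.ofReal (‖U 1 E‖ ^ 2) *
        ENNReal.ofReal (col s lam v E n)) := hg1.mul (ENNReal.measurable_ofReal.comp hcm)
    have one_le : ∀ k, ∫⁻ E, ENNReal.ofReal (‖U k E‖ ^ 2) ∂ν ≤ 1 := by
      intro k
      refine (Wb (Ph s k)).trans ?_
      rw [← ENNReal.ofReal_one]
      exact ENNReal.ofReal_le_ofReal (norm_Ph k)
    calc ∫⁻ E, w0 E * ENNReal.ofReal (‖U 1 E‖ ^ 2) * ENNReal.ofReal (col s lam v E n)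
        = ∫⁻ E, (w0 * (fun E => ENNReal.ofReal (‖U 1 E‖ ^ 2) *
            ENNReal.ofReal (col s lam v E n))) E := by
          congr 1
          ext E
          simp only [Pi.mul_apply, mul_assoc]
      _ = ∫⁻ E, ENNReal.ofReal (‖U 1 E‖ ^ 2) * ENNReal.ofReal (col s lam v E n) ∂μ0 :=
          (lintegral_withDensity_eq_lintegral_mul volume hm0 hg2).symm
      _ = ∫⁻ E, (ENNReal.ofReal (‖U (n + 1) E‖ ^ 2) + ENNReal.ofReal (‖U n E‖ ^ 2)) ∂μ0 := by
          apply lintegral_congr_ae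
          filter_upwards [good] with E h
          obtain ⟨h1, h2⟩ := h.1 n
          rw [h1, h2, ← ENNReal.ofReal_mul (by positivity),
            ← ENNReal.ofReal_add (by positivity) (by positivity)]
          congr 1
          rw [norm_mul, norm_mul, Complex.norm_real, Complex.norm_real, mul_pow, mul_pow,
            Real.norm_eq_abs, Real.norm_eq_abs, sq_abs, sq_abs]
          unfold Pool.Agent.H508R3.AT.col
          ring
      _ ≤ ∫⁻ E, (ENNReal.ofReal (‖U (n + 1) E‖ ^ 2) + ENNReal.ofReal (‖U n E‖ ^ 2)) ∂ν :=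
          lintegral_mono' hle le_rfl
      _ = ∫⁻ E, ENNReal.ofReal (‖U (n + 1) E‖ ^ 2) ∂ν + ∫⁻ E, ENNReal.ofReal (‖U n E‖ ^ 2) ∂ν :=
          lintegral_add_left (ENNReal.measurable_ofReal.comp ((Um (n + 1)).norm.pow_const 2)) _
      _ ≤ 1 + 1 := add_le_add (one_le _) (one_le _)
      _ = 2 := by norm_num

end Pool.Agent.H77R3.AT2a
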