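import Pool.Agent.H508R3.AT.Stmts

set_option autoImplicit false

/-! Task T2a of the project 508-AT (helper508): algebra part. (helper77) -/

namespace Pool.Agent.H77R3.AT2a

open MeasureTheory Filter Topology Set Matrix
open Pool.Agent.H695R3.AT Pool.Agent.H508R3.AT
open Pool.Agent.H508R3.SC (M2 ns)

variable {s : ℕ → ℕ}

/-- normalised shell vectors, shifted by one -/
noncomputable def Ph (s : ℕ → ℕ) : ℕ → L2 s
  | 0 => 0
  | n + 1 => ((1 / √(s n : ℝ) : ℝ) : ℂ) • ∑ i : Fin (s n), lp.single 2 (⟨n, i⟩ : Vtx s) (1 : ℂ)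

lemma sum_single_apply (n : ℕ) (x : Vtx s) :
    (∑ i : Fin (s n), (lp.single 2 (⟨n, i⟩ : Vtx s) (1 : ℂ) : L2 s) x) =
      if x.1 = n then 1 else 0 := by
  obtain ⟨m, j⟩ := x
  by_cases h : m = n
  · subst h
    rw [if_pos rfl, Finset.sum_eq_single j]
    · rw [lp.single_apply_self]
    · intro i _ hi
      rw [lp.single_apply_ne]
      intro h
      apply hi
      simpa using h.symm
    · intro h
      exact absurd (Finset.mem_univ j) h
  · rw [if_neg h]
    apply Finset.sum_eq_zero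
    intro i _
    rw [lp.single_apply_ne]
    intro h'
    exact h (congrArg Sigma.fst h')

lemma Ph_apply (k : ℕ) (y : Vtx s) :
    (Ph s k) y = (if y.1 + 1 = k then 1 else 0) / (√(s y.1 : ℝ) : ℝ) := by
  cases k with
  | zero => simp [Ph]
  | succ n =>
    have h : (Ph s (n + 1)) y = ((1 / √(s n : ℝ) : ℝ) : ℂ) *
        ∑ i : Fin (s n), (lp.single 2 (⟨n, i⟩ : Vtx s) (1 : ℂ) : L2 s) y := by
      simp only [Ph, lp.coeFn_smul, Pi.smul_apply, smul_eq_mul, lp.coeFn_sum, Finset.sum_apply]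
    rw [h, sum_single_apply]
    by_cases h2 : y.1 = n
    · rw [if_pos h2, if_pos (by omega), h2]
      push_cast
      ring
    · rw [if_neg h2, if_neg (by omega)]
      simp

lemma q_single (x : Vtx s) (k : ℕ) :
    q ((lp.single 2 x (1 : ℂ) : L2 s) : Vtx s → ℂ) k =
      (if x.1 + 1 = k then 1 else 0) / (√(s x.1 : ℝ) : ℝ) := by
  cases k with
  | zero => simp [q]
  | succ n =>
    simp only [q, pm]
    obtain ⟨m, j⟩ := x
    by_cases h : m = n
    · subst h
      rw [if_pos rfl]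
      congr 1
      rw [Finset.sum_eq_single j]
      · rw [lp.single_apply_self]
      · intro i _ hi
        rw [lp.single_apply_ne]
        intro h
        apply hi
        simpa using h
      · intro h
        exact absurd (Finset.mem_univ j) h
    · rw [if_neg (by simpa using h)]
      rw [Finset.sum_eq_zero]
      · simp
      · intro i _
        rw [lp.single_apply_ne]
        intro h'
        exact h (congrArg Sigma.fst h').symm

lemma H_single {lam : ℝ} {v : Vtx s → ℝ} {H : L2 s →L[ℂ] L2 s} (hH : IsAnderson s lam v H)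
    (x : Vtx s) :
    H (lp.single 2 x (1 : ℂ)) = ((lam * v x : ℝ) : ℂ) • (lp.single 2 x (1 : ℂ) : L2 s) +
      ((1 / √(s x.1 : ℝ) : ℝ) : ℂ) • (Ph s x.1 + Ph s (x.1 + 2)) := by
  refine lp.ext (funext fun y => ?_)
  rw [anderson_apply hH, q_single, q_single]
  simp only [lp.coeFn_add, lp.coeFn_smul, Pi.add_apply, Pi.smul_apply, smul_eq_mul]
  rw [Ph_apply, Ph_apply]
  have e1 : ((lam * v y : ℝ) : ℂ) * (lp.single 2 x (1 : ℂ) : L2 s) y =
      ((lam * v x : ℝ) : ℂ) * (lp.single 2 x (1 : ℂ) : L2 s) y := by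
    by_cases h : y = x
    · rw [h]
    · rw [lp.single_apply_ne _ _ _ h, mul_zero, mul_zero]
  rw [e1]
  have c1 : (x.1 + 1 = y.1) = (y.1 + 1 = x.1 + 2) := by
    apply propext; omega
  have c2 : (x.1 + 1 = y.1 + 2) = (y.1 + 1 = x.1) := by
    apply propext; omega
  simp only [c1, c2]
  push_cast
  ring

lemma sum_delta (k N : ℕ) :
    ∑ n ∈ Finset.range N, ‖(fun n : ℕ => if n + 1 = k then (1 : ℂ) else 0) n‖ ^ 2 ≤ 1 := by
  calc ∑ n ∈ Finset.range N, ‖(fun n : ℕ => if n + 1 = k then (1 : ℂ) else 0) n‖ ^ 2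
      = ∑ n ∈ Finset.range N, (if n + 1 = k then (1 : ℝ) else 0) := by
        apply Finset.sum_congr rfl
        intro n _
        by_cases h : n + 1 = k <;> simp [h]
    _ ≤ 1 := by
        rw [Finset.sum_ite]
        simp only [Finset.sum_const, nsmul_eq_mul, mul_one, Finset.sum_const_zero, add_zero]
        have : (Finset.filter (fun n => n + 1 = k) (Finset.range N)).card ≤ 1 := by
          rw [Finset.card_le_one]
          intro a ha b hb
          rw [Finset.mem_filter] at ha hb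
          omega
        exact_mod_cast this

lemma norm_Ph (k : ℕ) : ‖Ph s k‖ ^ 2 ≤ 1 := by
  have h2 : ∀ F : Finset (Vtx s), ∑ y ∈ F, ‖(Ph s k) y‖ ^ 2 ≤ 1 := by
    intro F
    have h1 := shell_sum_le (s := s) (fun n : ℕ => if n + 1 = k then (1 : ℂ) else 0)
      (sum_delta k) F
    refine le_trans (le_of_eq ?_) h1
    apply Finset.sum_congr rfl
    intro y _
    rw [Ph_apply]
  have h : ‖Ph s k‖ ≤ 1 := by
    apply lp.norm_le_of_forall_sum_le two_pos' (by norm_num)
    intro F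
    rw [toReal_two, Real.rpow_natCast, one_pow]
    simp only [Real.rpow_natCast]
    exact h2 F
  nlinarith [norm_nonneg (Ph s k)]

/-- the recursion at one energy -/
lemma rec_energy (hs : ∀ n, 0 < s n) {lam E : ℝ} {v : Om s} {F : Vtx s → ℂ} {U : ℕ → ℂ}
    (h0 : U 0 = 0) (hU : ∀ n, U (n + 1) = ((1 / √(s n : ℝ) : ℝ) : ℂ) * ∑ i : Fin (s n), F ⟨n, i⟩)
    (hF : ∀ x : Vtx s, (E : ℂ) * F x = ((lam * v x : ℝ) : ℂ) * F x +
      ((1 / √(s x.1 : ℝ) : ℝ) : ℂ) * (U x.1 + U (x.1 + 2)))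
    (hE : ∀ x : Vtx s, E - lam * v x ≠ 0) (hY : ∀ n, YY s lam v n E ≠ 0) :
    (∀ n, U (n + 1) = U 1 * ((TT s lam v E 0 n 0 0 : ℝ) : ℂ) ∧
      U n = U 1 * ((TT s lam v E 0 n 1 0 : ℝ) : ℂ)) ∧
    (U 1 = 0 → ∀ x, F x = 0) := by
  have hF2 : ∀ x : Vtx s, F x = (((1 / √(s x.1 : ℝ) : ℝ) : ℂ) * (U x.1 + U (x.1 + 2))) *
      (((E - lam * v x)⁻¹ : ℝ) : ℂ) := by
    intro x
    have h1 := hF x
    have h2 : (((E - lam * v x) : ℝ) : ℂ) ≠ 0 := by exact_mod_cast hE x
    push_cast at h1 h2 ⊢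
    field_simp
    linear_combination h1
  have key : ∀ n, U (n + 1) = (U n + U (n + 2)) * ((YY s lam v n E : ℝ) : ℂ) := by
    intro n
    rw [hU n]
    have h3 : ∑ i : Fin (s n), F ⟨n, i⟩ = (((1 / √(s n : ℝ) : ℝ) : ℂ) * (U n + U (n + 2))) *
        ∑ i : Fin (s n), (((E - lam * v ⟨n, i⟩)⁻¹ : ℝ) : ℂ) := by
      rw [Finset.mul_sum]
      exact Finset.sum_congr rfl fun i _ => hF2 ⟨n, i⟩
    rw [h3]
    unfold YY
    have h4 : ((1 / √(s n : ℝ) : ℝ) : ℂ) * ((1 / √(s n : ℝ) : ℝ) : ℂ) = ((1 / (s n : ℝ) : ℝ) : ℂ) := by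
      rw [← Complex.ofReal_mul]
      congr 1
      rw [div_mul_div_comm, one_mul, Real.mul_self_sqrt (by positivity)]
    push_cast at h4 ⊢
    linear_combination ((U n + U (n + 2)) *
        ∑ i : Fin (s n), (((E : ℂ) - lam * v ⟨n, i⟩)⁻¹)) * h4
  have key2 : ∀ n, U (n + 2) = (((YY s lam v n E)⁻¹ : ℝ) : ℂ) * U (n + 1) - U n := by
    intro n
    have h1 : ((YY s lam v n E : ℝ) : ℂ) ≠ 0 := by exact_mod_cast hY n
    have h2 := key n
    push_cast
    field_simp
    linear_combination -h2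
  have main : ∀ n, U (n + 1) = U 1 * ((TT s lam v E 0 n 0 0 : ℝ) : ℂ) ∧
      U n = U 1 * ((TT s lam v E 0 n 1 0 : ℝ) : ℂ) := by
    intro n
    induction n with
    | zero => simp [TT, h0]
    | succ n ih =>
      have t0 : TT s lam v E 0 (n + 1) 0 0 = (YY s lam v n E)⁻¹ * TT s lam v E 0 n 0 0 -
          TT s lam v E 0 n 1 0 := by
        simp [TT, Mh, Matrix.mul_apply, Fin.sum_univ_two]
        ring
      have t1 : TT s lam v E 0 (n + 1) 1 0 = TT s lam v E 0 n 0 0 := by
        simp [TT, Mh, Matrix.mul_apply, Fin.sum_univ_two]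
      refine ⟨?_, ?_⟩
      · rw [key2 n, t0]
        obtain ⟨i1, i2⟩ := ih
        rw [i1]
        conv_lhs => rw [i2]
        push_cast
        ring
      · rw [t1]
        exact ih.1
  refine ⟨main, fun hU1 x => ?_⟩
  have hz : ∀ n, U n = 0 := by
    intro n
    rw [(main n).2, hU1, zero_mul]
  rw [hF2 x, hz, hz]
  simp

/-- the shell averages vanish at finitely many energies -/
lemma YY_zero_null (hs : ∀ n, 0 < s n) (lam : ℝ) (v : Om s) :
    ∀ᵐ E : ℝ, (∀ x : Vtx s, E - lam * v x ≠ 0) ∧ ∀ n, YY s lam v n E ≠ 0 := by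
  have h1 : ∀ᵐ E : ℝ, ∀ x : Vtx s, E - lam * v x ≠ 0 := by
    rw [ae_all_iff]
    intro x
    have : {E : ℝ | ¬ (E - lam * v x ≠ 0)} = {lam * v x} := by
      ext E
      simp [sub_eq_zero]
    rw [ae_iff, this]
    simp
  have h2 : ∀ᵐ E : ℝ, ∀ n, (∀ i : Fin (s n), E - lam * v ⟨n, i⟩ ≠ 0) → YY s lam v n E ≠ 0 := by
    rw [ae_all_iff]
    intro n
    set Q : Polynomial ℝ := ∏ i : Fin (s n), (Polynomial.X - Polynomial.C (lam * v ⟨n, i⟩)) with hQ
    have hQd : Q.natDegree = s n := by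
      rw [hQ, Polynomial.natDegree_prod_of_monic _ _ (fun i _ => Polynomial.monic_X_sub_C _),
        Finset.sum_congr rfl (fun i _ => Polynomial.natDegree_X_sub_C _)]
      simp
    have hQ' : Polynomial.derivative Q ≠ 0 := by
      intro h
      have := Polynomial.derivative_eq_zero.1 h
      have := hs n
      omega
    have hfin : Set.Finite {E : ℝ | (Polynomial.derivative Q).eval E = 0} := by
      have : {E : ℝ | (Polynomial.derivative Q).eval E = 0} =
          {E : ℝ | (Polynomial.derivative Q).IsRoot E} := rfl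
      rw [this]
      exact Polynomial.finite_setOfPred_isRoot hQ'
    have hnull : volume {E : ℝ | (Polynomial.derivative Q).eval E = 0} = 0 := hfin.measure_zero _
    rw [ae_iff]
    refine measure_mono_null ?_ hnull
    intro E hE
    simp only [Set.mem_ofPred_eq, not_forall, not_not] at hE ⊢
    obtain ⟨hE1, hE2⟩ := hE
    have hder : (Polynomial.derivative Q).eval E =
        ∑ i : Fin (s n), ∏ j ∈ Finset.univ.erase i, (E - lam * v ⟨n, j⟩) := by
      rw [hQ, Polynomial.derivative_prod_finset, Polynomial.eval_finset_sum]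
      apply Finset.sum_congr rfl
      intro i _
      rw [Polynomial.derivative_X_sub_C, mul_one, Polynomial.eval_prod]
      apply Finset.prod_congr rfl
      intro j _
      rw [Polynomial.eval_sub, Polynomial.eval_X, Polynomial.eval_C]
    have hY : ∑ i : Fin (s n), (E - lam * v ⟨n, i⟩)⁻¹ = 0 := by
      unfold YY at hE2
      have h3 : (s n : ℝ) ≠ 0 := by
        have := hs n
        positivity
      rcases div_eq_zero_iff.1 hE2 with h | h
      · exact h
      · exact absurd h h3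
    rw [hder]
    have h4 : ∀ i : Fin (s n), ∏ j ∈ Finset.univ.erase i, (E - lam * v ⟨n, j⟩) =
        (∏ j, (E - lam * v ⟨n, j⟩)) * (E - lam * v ⟨n, i⟩)⁻¹ := by
      intro i
      rw [← Finset.mul_prod_erase Finset.univ _ (Finset.mem_univ i)]
      have := hE1 i
      field_simp
    rw [Finset.sum_congr rfl fun i _ => h4 i, ← Finset.mul_sum, hY, mul_zero]
  filter_upwards [h1, h2] with E e1 e2
  exact ⟨e1, fun n => e2 n fun i => e1 _⟩

end Pool.Agent.H77R3.AT2a
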